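import Pool.Agent.Helper40.EL.K1
import Pool.Agent.Helper31.EC.Ulim

/-! Chapter MAX (4.4) of the NS project: the choice of a typical window for a sequence of near-maximizers.
Countably many sequences of monotone functions and one sequence of two-parameter families; at almost every point
there is a subsequence and a sequence of scales along which all of them have exact linear increments. -/

set_option autoImplicit false

namespace Pool.Agent.Helper51.MX

open MeasureTheory Filter Set Topology Pool.Agent.Helper40.EL Pool.Agent.Helper31.EC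

/-- two-sided version of (K1) -/
theorem K1two (m : ℝ) (f : ℝ → ℝ → ℝ) (hf0 : ∀ u c, 0 ≤ f u c) (hfm : ∀ u c, 0 ≤ u → f u c ≤ m * u)
    (ha : ∀ u, Antitone (f u)) :
    ∀ᵐ c ∂(volume.restrict (Ioc (0:ℝ) 1)), ∀ C : ℕ, ∀ᶠ j : ℕ in atTop,
      f (C / 2 ^ j) (c - C / 2 ^ j) - f (C / 2 ^ j) (c + C / 2 ^ j) < (2:ℝ) ^ (-(3 * (j:ℝ) / 2)) := by
  rw [ae_all_iff]
  intro C
  have hb : ∀ j : ℕ, (volume.restrict (Ioc (0:ℝ) 1))
      {c | (2:ℝ) ^ (-(3 * (j:ℝ) / 2)) ≤ f (C / 2 ^ j) (c - C / 2 ^ j) - f (C / 2 ^ j) (c + C / 2 ^ j)} ≤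
      ENNReal.ofReal (2 * m * C ^ 2 * ((2:ℝ) ^ (-(1:ℝ) / 2)) ^ j) := by
    intro j
    have hu : (0:ℝ) ≤ C / 2 ^ j := by positivity
    have hA : Antitone (fun c => f (C / 2 ^ j) (c - C / 2 ^ j)) := fun x y hxy => ha _ (by linarith)
    have h1 := K1_meas (fun c => f (C / 2 ^ j) (c - C / 2 ^ j)) hA (m * (C / 2 ^ j)) (2 * (C / 2 ^ j))
      ((2:ℝ) ^ (-(3 * (j:ℝ) / 2))) (by positivity) (by positivity) (fun c => hf0 _ _)
      (fun c => hfm _ _ hu)
    have e0 : (fun c : ℝ => f (C / 2 ^ j) (c + 2 * (C / 2 ^ j) - C / 2 ^ j)) =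
        fun c : ℝ => f (C / 2 ^ j) (c + C / 2 ^ j) := by
      funext c
      congr 1
      ring
    have e0' : ∀ c : ℝ, f (C / 2 ^ j) (c + 2 * (C / 2 ^ j) - C / 2 ^ j) =
        f (C / 2 ^ j) (c + C / 2 ^ j) := fun c => congrFun e0 c
    simp only [e0'] at h1
    refine le_trans h1 (le_of_eq ?_)
    congr 1
    have e1 : ((2:ℝ) ^ (-(1:ℝ) / 2)) ^ j = (2:ℝ) ^ (-((j:ℝ) / 2)) := by
      rw [← Real.rpow_natCast, ← Real.rpow_mul (by norm_num)]
      congr 1
      ring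
    have e2 : (2:ℝ) ^ j = (2:ℝ) ^ ((j:ℝ)) := (Real.rpow_natCast 2 j).symm
    have e3 : (2:ℝ) ^ (-((j:ℝ) / 2)) * (2:ℝ) ^ (-(3 * (j:ℝ) / 2)) * ((2:ℝ) ^ ((j:ℝ)) * (2:ℝ) ^ ((j:ℝ))) = 1 := by
      rw [← Real.rpow_add (by norm_num), ← Real.rpow_add (by norm_num), ← Real.rpow_add (by norm_num)]
      rw [show -((j:ℝ) / 2) + -(3 * (j:ℝ) / 2) + ((j:ℝ) + (j:ℝ)) = 0 by ring, Real.rpow_zero]
    rw [e1, e2]
    have p1 : (0:ℝ) < (2:ℝ) ^ ((j:ℝ)) := by positivity
    have p2 : (0:ℝ) < (2:ℝ) ^ (-(3 * (j:ℝ) / 2)) := by positivity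
    field_simp
    linear_combination (-(m * (C:ℝ) ^ 2)) * e3
  have hs : (∑' j : ℕ, (volume.restrict (Ioc (0:ℝ) 1))
      {c | (2:ℝ) ^ (-(3 * (j:ℝ) / 2)) ≤ f (C / 2 ^ j) (c - C / 2 ^ j) - f (C / 2 ^ j) (c + C / 2 ^ j)}) ≠ ⊤ := by
    refine ne_top_of_le_ne_top ?_ (ENNReal.tsum_le_tsum hb)
    have hm : 0 ≤ m := by
      have h1 := hf0 1 0
      have h2 := hfm 1 0 (by norm_num)
      linarith
    have hr : (2:ℝ) ^ (-(1:ℝ) / 2) < 1 := Real.rpow_lt_one_of_one_lt_of_neg (by norm_num) (by norm_num)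
    have hsum : Summable (fun j : ℕ => 2 * m * C ^ 2 * ((2:ℝ) ^ (-(1:ℝ) / 2)) ^ j) :=
      (summable_geometric_of_lt_one (by positivity) hr).mul_left _
    rw [← ENNReal.ofReal_tsum_of_nonneg (fun j => by positivity) hsum]
    exact ENNReal.ofReal_ne_top
  have hbc := ae_eventually_notMem hs
  filter_upwards [hbc] with c hc
  filter_upwards [hc] with j hj
  simpa only [Set.mem_ofPred_eq, not_le] using hj

/-- projection to `[0, θ]` -/
noncomputable def clm (θ s : ℝ) : ℝ := max 0 (min s θ)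

theorem clm_mem {θ : ℝ} (h : 0 < θ) (s : ℝ) : clm θ s ∈ Icc 0 θ :=
  ⟨le_max_left _ _, max_le h.le (min_le_right _ _)⟩

theorem clm_mono (θ : ℝ) : Monotone (clm θ) := fun _ _ h => max_le_max le_rfl (min_le_min h le_rfl)

theorem clm_eq {θ s : ℝ} (h : s ∈ Icc 0 θ) : clm θ s = s := by
  unfold clm
  rw [min_eq_left h.2, max_eq_right h.1]

/-- difference quotients along dyadic scales -/
theorem slope_dyadic {g : ℝ → ℝ} {s w : ℝ} (h : HasDerivAt g w s) (q : ℝ) :
    Tendsto (fun l : ℕ => (g (s + q / 2 ^ l) - g s) * 2 ^ l) atTop (𝓝 (w * q)) := by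
  have h1 : HasDerivAt (fun t : ℝ => g (s + q * t)) (w * q) 0 := by
    have h2 : HasDerivAt (fun t : ℝ => s + q * t) q 0 := by
      simpa using ((hasDerivAt_id (0:ℝ)).const_mul q).const_add s
    have h3 : HasDerivAt g w (s + q * 0) := by simpa using h
    exact HasDerivAt.comp (0:ℝ) h3 h2
  have h4 := h1.tendsto_slope_zero
  have h5 : Tendsto (fun l : ℕ => ((2:ℝ) ^ l)⁻¹) atTop (𝓝[≠] 0) := by
    rw [tendsto_nhdsWithin_iff]
    constructor
    · have := tendsto_pow_atTop_nhds_zero_of_lt_one (r := (1/2:ℝ)) (by norm_num) (by norm_num)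
      refine this.congr (fun l => ?_)
      rw [one_div, inv_pow]
    · exact Eventually.of_forall fun l => by simp
  have h6 := h4.comp h5
  refine h6.congr (fun l => ?_)
  simp only [Function.comp, zero_add, mul_zero, add_zero, inv_inv, smul_eq_mul]
  rw [mul_comm, div_eq_mul_inv]

/-- almost surely typical windows -/
theorem M7 (θ : ℝ) (hθ0 : 0 < θ) (hθ : θ ≤ 1) (f : ℕ → ℕ → ℝ → ℝ) (C : ℕ → ℝ)
    (hf : ∀ j i, MonotoneOn (f j i) (Icc 0 θ)) (hb : ∀ j i, ∀ s ∈ Icc 0 θ, |f j i s| ≤ C j)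
    (m : ℝ) (F : ℕ → ℝ → ℝ → ℝ) (hF0 : ∀ i u, ∀ s ∈ Icc 0 θ, 0 ≤ F i u s)
    (hFm : ∀ i u, ∀ s ∈ Icc 0 θ, 0 ≤ u → F i u s ≤ m * u)
    (hFa : ∀ i u, AntitoneOn (F i u) (Icc 0 θ)) (ε : ℕ → ℝ) (hε : Tendsto ε atTop (𝓝 0)) :
    ∀ᵐ s ∂(volume.restrict (Ioo (0:ℝ) θ)), ∃ w : ℕ → ℝ, (∀ j, 0 ≤ w j) ∧
      ∃ φ : ℕ → ℕ, StrictMono φ ∧
        (∀ (j : ℕ) (x : ℝ), Tendsto (fun l => (f j (φ l) (s + x / 2 ^ l) - f j (φ l) s) * 2 ^ l) atTop
          (𝓝 (w j * x))) ∧
        (∀ A : ℕ, Tendsto (fun l => (F (φ l) (A / 2 ^ l) (s - A / 2 ^ l) -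
          F (φ l) (A / 2 ^ l) (s + A / 2 ^ l)) * 2 ^ l) atTop (𝓝 0)) ∧
        Tendsto (fun l => ε (φ l) * 2 ^ l) atTop (𝓝 0) := by
  set f' : ℕ → ℕ → ℝ → ℝ := fun j i s => f j i (clm θ s) with hf'
  have hf'm : ∀ j i, Monotone (f' j i) := fun j i x y h =>
    hf j i (clm_mem hθ0 x) (clm_mem hθ0 y) (clm_mono θ h)
  have hf'b : ∀ j s, UB (fun i => f' j i s) := fun j s =>
    ⟨C j, Eventually.of_forall fun i => hb j i _ (clm_mem hθ0 s)⟩
  set g : ℕ → ℝ → ℝ := fun j s => ul (fun i => f' j i s) with hg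
  have hgm : ∀ j, Monotone (g j) := fun j x y h =>
    ul_mono (hf'b j x) (hf'b j y) (Eventually.of_forall fun i => hf'm j i h)
  have hgt : ∀ j s, Tendsto (fun i => f' j i s) UF (𝓝 (g j s)) := fun j s => ul_tendsto (hf'b j s)
  set F' : ℕ → ℝ → ℝ → ℝ := fun i u s => F i (max u 0) (clm θ s) with hF'
  have hF'b : ∀ u s, UB (fun i => F' i u s) := fun u s =>
    UB_of_nonneg_le (C := m * max u 0) (Eventually.of_forall fun i => hF0 i _ _ (clm_mem hθ0 s))
      (Eventually.of_forall fun i => hFm i _ _ (clm_mem hθ0 s) (le_max_right _ _))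
  set G : ℝ → ℝ → ℝ := fun u s => ul (fun i => F' i u s) with hG
  have hG0 : ∀ u s, 0 ≤ G u s := fun u s =>
    const_le_ul (hF'b u s) (Eventually.of_forall fun i => hF0 i _ _ (clm_mem hθ0 s))
  have hGm : ∀ u s, 0 ≤ u → G u s ≤ m * u := fun u s hu =>
    ul_le_const (hF'b u s) (Eventually.of_forall fun i => by
      have := hFm i (max u 0) _ (clm_mem hθ0 s) (le_max_right _ _)
      show F i (max u 0) (clm θ s) ≤ m * u
      rwa [max_eq_left hu] at this ⊢)
  have hGa : ∀ u, Antitone (G u) := fun u x y h =>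
    ul_mono (hF'b u y) (hF'b u x) (Eventually.of_forall fun i =>
      hFa i _ (clm_mem hθ0 x) (clm_mem hθ0 y) (clm_mono θ h))
  have hGt : ∀ u s, Tendsto (fun i => F' i u s) UF (𝓝 (G u s)) := fun u s => ul_tendsto (hF'b u s)
  have hK := K1two m G hG0 hGm hGa
  have hK' : ∀ᵐ c ∂(volume.restrict (Ioo (0:ℝ) θ)), ∀ C : ℕ, ∀ᶠ j : ℕ in atTop,
      G (C / 2 ^ j) (c - C / 2 ^ j) - G (C / 2 ^ j) (c + C / 2 ^ j) < (2:ℝ) ^ (-(3 * (j:ℝ) / 2)) :=
    ae_restrict_of_ae_restrict_of_subset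
      (fun x (hx : x ∈ Ioo (0:ℝ) θ) => (⟨hx.1, hx.2.le.trans hθ⟩ : x ∈ Ioc (0:ℝ) 1)) hK
  have hD : ∀ᵐ s ∂(volume.restrict (Ioo (0:ℝ) θ)), ∀ j, DifferentiableAt ℝ (g j) s :=
    ae_restrict_of_ae (ae_all_iff.2 fun j => (hgm j).ae_differentiableAt)
  filter_upwards [hK', hD, ae_restrict_mem measurableSet_Ioo] with s h1 h2 hs
  have hder : ∀ j, HasDerivAt (g j) (deriv (g j) s) s := fun j => (h2 j).hasDerivAt
  have hw : ∀ j, 0 ≤ deriv (g j) s := by
    intro j
    have h3 := slope_dyadic (hder j) 1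
    rw [mul_one] at h3
    refine ge_of_tendsto' h3 (fun l => ?_)
    apply mul_nonneg _ (by positivity)
    rw [sub_nonneg]
    exact hgm j (by have : (0:ℝ) ≤ 1 / 2 ^ l := by positivity
                    linarith)
  refine ⟨fun j => deriv (g j) s, hw, ?_⟩
  set w : ℕ → ℝ := fun j => deriv (g j) s with hwd
  -- the conditions
  have hT : ∀ l : ℕ, ∀ᶠ i in UF,
      ((∀ j ∈ Finset.range (l + 1), ∀ k ∈ Finset.range (l + 1),
        |f' j i (s + ((Denumerable.ofNat ℚ k : ℚ) : ℝ) / 2 ^ l) -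
          g j (s + ((Denumerable.ofNat ℚ k : ℚ) : ℝ) / 2 ^ l)| < 1 / 4 ^ l) ∧
       (∀ j ∈ Finset.range (l + 1), |f' j i s - g j s| < 1 / 4 ^ l)) ∧
      ((∀ A ∈ Finset.range (l + 1), |F' i ((A : ℕ) / 2 ^ l) (s - (A : ℕ) / 2 ^ l) -
          G ((A : ℕ) / 2 ^ l) (s - (A : ℕ) / 2 ^ l)| < 1 / 4 ^ l) ∧
       (∀ A ∈ Finset.range (l + 1), |F' i ((A : ℕ) / 2 ^ l) (s + (A : ℕ) / 2 ^ l) -
          G ((A : ℕ) / 2 ^ l) (s + (A : ℕ) / 2 ^ l)| < 1 / 4 ^ l)) ∧ |ε i| < 1 / 4 ^ l := by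
    intro l
    have h4 : (0:ℝ) < 1 / 4 ^ l := by positivity
    have key : ∀ {a : ℕ → ℝ} {x : ℝ}, Tendsto a UF (𝓝 x) → ∀ᶠ i in UF, |a i - x| < 1 / 4 ^ l := by
      intro a x ha
      have := Metric.tendsto_nhds.1 ha _ h4
      simpa only [Real.dist_eq] using this
    refine ((((Finset.eventually_all _).2 fun j _ => (Finset.eventually_all _).2 fun k _ =>
      key (hgt j _)).and ((Finset.eventually_all _).2 fun j _ => key (hgt j _))).and
      ((((Finset.eventually_all _).2 fun A _ => key (hGt _ _)).and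
        ((Finset.eventually_all _).2 fun A _ => key (hGt _ _))).and ?_))
    have h5 := key (hε.mono_left UF_le_atTop)
    simpa only [sub_zero] using h5
  have hUF : ∀ {p : ℕ → Prop}, (∀ᶠ i in UF, p i) → ∃ᶠ i in atTop, p i := by
    intro p hp
    have : UF.NeBot := by unfold UF; infer_instance
    exact (Filter.Eventually.frequently hp).filter_mono UF_le_atTop
  obtain ⟨φ, hφ, hφT⟩ := Filter.extraction_forall_of_frequently (fun l => hUF (hT l))
  refine ⟨φ, hφ, ?_, ?_, ?_⟩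
  · intro j x
    -- rational values
    have hq : ∀ q : ℚ, Tendsto (fun l => (f' j (φ l) (s + (q:ℝ) / 2 ^ l) - f' j (φ l) s) * 2 ^ l) atTop
        (𝓝 (w j * q)) := by
      intro q
      have h3 := slope_dyadic (hder j) (q:ℝ)
      have h4 : Tendsto (fun l : ℕ => 2 * (1 / 2 : ℝ) ^ l) atTop (𝓝 0) := by
        simpa using (tendsto_pow_atTop_nhds_zero_of_lt_one (r := (1/2:ℝ)) (by norm_num)
          (by norm_num)).const_mul 2
      obtain ⟨k, hk⟩ : ∃ k, Denumerable.ofNat ℚ k = q := ⟨_, Denumerable.ofNat_encode q⟩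
      have h5 : Tendsto (fun l => (f' j (φ l) (s + (q:ℝ) / 2 ^ l) - f' j (φ l) s) * 2 ^ l -
          (g j (s + (q:ℝ) / 2 ^ l) - g j s) * 2 ^ l) atTop (𝓝 0) := by
        rw [tendsto_zero_iff_abs_tendsto_zero]
        refine squeeze_zero' (Eventually.of_forall fun l => abs_nonneg _) ?_ h4
        filter_upwards [eventually_ge_atTop (max j k)] with l hl
        have hj : j ∈ Finset.range (l + 1) := Finset.mem_range.2 (by have := le_max_left j k; omega)
        have hk' : k ∈ Finset.range (l + 1) := Finset.mem_range.2 (by have := le_max_right j k; omega)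
        have a1 := (hφT l).1.1 j hj k hk'
        have a2 := (hφT l).1.2 j hj
        rw [hk] at a1
        have e1 : (f' j (φ l) (s + (q:ℝ) / 2 ^ l) - f' j (φ l) s) * 2 ^ l -
            (g j (s + (q:ℝ) / 2 ^ l) - g j s) * 2 ^ l =
            ((f' j (φ l) (s + (q:ℝ) / 2 ^ l) - g j (s + (q:ℝ) / 2 ^ l)) - (f' j (φ l) s - g j s)) * 2 ^ l := by
          ring
        have p2 : (0:ℝ) < 2 ^ l := by positivity
        simp only [Function.comp]
        rw [e1, abs_mul, abs_of_pos p2]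
        have a3 : |(f' j (φ l) (s + (q:ℝ) / 2 ^ l) - g j (s + (q:ℝ) / 2 ^ l)) - (f' j (φ l) s - g j s)| ≤
            2 * (1 / 4 ^ l) := by
          refine (abs_sub _ _).trans ?_
          linarith
        refine (mul_le_mul_of_nonneg_right a3 p2.le).trans (le_of_eq ?_)
        have e4 : (4:ℝ) ^ l = 2 ^ l * 2 ^ l := by rw [← mul_pow]; norm_num
        rw [e4, one_div, one_div, inv_pow]
        field_simp
      have h6 := h5.add h3
      rw [zero_add] at h6
      exact h6.congr (fun l => by ring)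
    have hx : Tendsto (fun l => (f' j (φ l) (s + x / 2 ^ l) - f' j (φ l) s) * 2 ^ l) atTop (𝓝 (w j * x)) := by
      have hcmp : ∀ {a b : ℝ}, a ≤ b → ∀ l, (f' j (φ l) (s + a / 2 ^ l) - f' j (φ l) s) * 2 ^ l ≤
          (f' j (φ l) (s + b / 2 ^ l) - f' j (φ l) s) * 2 ^ l := by
        intro a b hab l
        apply mul_le_mul_of_nonneg_right _ (by positivity)
        apply sub_le_sub_right
        apply hf'm
        have : a / 2 ^ l ≤ b / 2 ^ l := div_le_div_of_nonneg_right hab (by positivity)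
        linarith
      rw [tendsto_order]
      constructor
      · intro a ha
        obtain ⟨q, hqx, hqa⟩ : ∃ q : ℚ, (q:ℝ) < x ∧ a < w j * q := by
          rcases eq_or_lt_of_le (hw j) with h0 | h0
          · obtain ⟨q, hq1, hq2⟩ := exists_rat_btwn (show x - 1 < x by linarith)
            refine ⟨q, hq2, ?_⟩
            have e0 : w j = 0 := h0.symm
            rw [e0, zero_mul] at ha ⊢
            exact ha
          · have h7 : a / w j < x := by rw [div_lt_iff₀ h0]; linarith [mul_comm (w j) x]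
            obtain ⟨q, hq1, hq2⟩ := exists_rat_btwn h7
            refine ⟨q, hq2, ?_⟩
            rw [div_lt_iff₀ h0] at hq1
            linarith [mul_comm (w j) (q:ℝ)]
        filter_upwards [(hq q).eventually (lt_mem_nhds hqa)] with l hl
        exact hl.trans_le (hcmp hqx.le l)
      · intro a ha
        obtain ⟨q, hqx, hqa⟩ : ∃ q : ℚ, x < (q:ℝ) ∧ w j * q < a := by
          rcases eq_or_lt_of_le (hw j) with h0 | h0
          · obtain ⟨q, hq1, hq2⟩ := exists_rat_btwn (show x < x + 1 by linarith)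
            refine ⟨q, hq1, ?_⟩
            have e0 : w j = 0 := h0.symm
            rw [e0, zero_mul] at ha ⊢
            exact ha
          · have h7 : x < a / w j := by rw [lt_div_iff₀ h0]; linarith [mul_comm (w j) x]
            obtain ⟨q, hq1, hq2⟩ := exists_rat_btwn h7
            refine ⟨q, hq1, ?_⟩
            rw [lt_div_iff₀ h0] at hq2
            linarith [mul_comm (w j) (q:ℝ)]
        filter_upwards [(hq q).eventually (gt_mem_nhds hqa)] with l hl
        exact (hcmp hqx.le l).trans_lt hl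
    have hlim : Tendsto (fun l : ℕ => s + x / 2 ^ l) atTop (𝓝 s) := by
      have h4 := (tendsto_pow_atTop_nhds_zero_of_lt_one (r := (1/2:ℝ)) (by norm_num)
        (by norm_num)).const_mul x
      have h5 := h4.const_add s
      rw [mul_zero, add_zero] at h5
      refine h5.congr (fun l => ?_)
      rw [one_div, inv_pow, div_eq_mul_inv]
    refine hx.congr' ?_
    filter_upwards [hlim.eventually (Ioo_mem_nhds hs.1 hs.2)] with l hl
    show (f j (φ l) (clm θ (s + x / 2 ^ l)) - f j (φ l) (clm θ s)) * 2 ^ l = _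
    rw [clm_eq ⟨hl.1.le, hl.2.le⟩, clm_eq ⟨hs.1.le, hs.2.le⟩]
  · intro A
    have h4 : Tendsto (fun l : ℕ => ((2:ℝ) ^ (-(1:ℝ) / 2)) ^ l + 2 * (1 / 2 : ℝ) ^ l) atTop (𝓝 0) := by
      have a1 := tendsto_pow_atTop_nhds_zero_of_lt_one (r := (2:ℝ) ^ (-(1:ℝ) / 2)) (by positivity)
        (Real.rpow_lt_one_of_one_lt_of_neg (by norm_num) (by norm_num))
      have a2 := (tendsto_pow_atTop_nhds_zero_of_lt_one (r := (1/2:ℝ)) (by norm_num)
          (by norm_num)).const_mul 2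
      simpa using a1.add a2
    have hlim : ∀ x : ℝ, Tendsto (fun l : ℕ => s + x / 2 ^ l) atTop (𝓝 s) := by
      intro x
      have h4 := (tendsto_pow_atTop_nhds_zero_of_lt_one (r := (1/2:ℝ)) (by norm_num)
        (by norm_num)).const_mul x
      have h5 := h4.const_add s
      rw [mul_zero, add_zero] at h5
      refine h5.congr (fun l => ?_)
      rw [one_div, inv_pow, div_eq_mul_inv]
    refine squeeze_zero' ?_ ?_ h4
    · filter_upwards [(hlim (A:ℝ)).eventually (Ioo_mem_nhds hs.1 hs.2),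
        (hlim (-(A:ℝ))).eventually (Ioo_mem_nhds hs.1 hs.2)] with l hl hl'
      have e1 : s + -(A:ℝ) / 2 ^ l = s - A / 2 ^ l := by ring
      rw [e1] at hl'
      apply mul_nonneg _ (by positivity)
      rw [sub_nonneg]
      apply hFa _ _ ⟨hl'.1.le, hl'.2.le⟩ ⟨hl.1.le, hl.2.le⟩
      have : (0:ℝ) ≤ A / 2 ^ l := by positivity
      linarith
    · filter_upwards [(hlim (A:ℝ)).eventually (Ioo_mem_nhds hs.1 hs.2),
        (hlim (-(A:ℝ))).eventually (Ioo_mem_nhds hs.1 hs.2), h1 A, eventually_ge_atTop A] with l hl hl' hk hA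
      have e1 : s + -(A:ℝ) / 2 ^ l = s - A / 2 ^ l := by ring
      rw [e1] at hl'
      have hA' : A ∈ Finset.range (l + 1) := Finset.mem_range.2 (by omega)
      have a1 := (hφT l).2.1.1 A hA'
      have a2 := (hφT l).2.1.2 A hA'
      have hAp : (0:ℝ) ≤ A / 2 ^ l := by positivity
      have e2 : F' (φ l) (A / 2 ^ l) (s - A / 2 ^ l) = F (φ l) (A / 2 ^ l) (s - A / 2 ^ l) := by
        show F (φ l) (max (A / 2 ^ l) 0) (clm θ (s - A / 2 ^ l)) = _
        rw [max_eq_left hAp, clm_eq ⟨hl'.1.le, hl'.2.le⟩]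
      have e3 : F' (φ l) (A / 2 ^ l) (s + A / 2 ^ l) = F (φ l) (A / 2 ^ l) (s + A / 2 ^ l) := by
        show F (φ l) (max (A / 2 ^ l) 0) (clm θ (s + A / 2 ^ l)) = _
        rw [max_eq_left hAp, clm_eq ⟨hl.1.le, hl.2.le⟩]
      rw [e2] at a1
      rw [e3] at a2
      have b1 := (abs_lt.1 a1).2
      have b2 := (abs_lt.1 a2).1
      have b3 : F (φ l) (A / 2 ^ l) (s - A / 2 ^ l) - F (φ l) (A / 2 ^ l) (s + A / 2 ^ l) ≤
          (2:ℝ) ^ (-(3 * (l:ℝ) / 2)) + 2 * (1 / 4 ^ l) := by linarith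
      have p2 : (0:ℝ) < 2 ^ l := by positivity
      refine (mul_le_mul_of_nonneg_right b3 p2.le).trans (le_of_eq ?_)
      have e4 : (4:ℝ) ^ l = 2 ^ l * 2 ^ l := by rw [← mul_pow]; norm_num
      have e5 : (2:ℝ) ^ (-(3 * (l:ℝ) / 2)) * 2 ^ l = ((2:ℝ) ^ (-(1:ℝ) / 2)) ^ l := by
        rw [← Real.rpow_natCast (x := 2), ← Real.rpow_natCast (x := (2:ℝ) ^ (-(1:ℝ) / 2)),
          ← Real.rpow_mul (by norm_num), ← Real.rpow_add (by norm_num)]
        congr 1
        ring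
      rw [add_mul, e5, e4, one_div, one_div, inv_pow]
      congr 1
      field_simp
  · have h4 : Tendsto (fun l : ℕ => (1 / 2 : ℝ) ^ l) atTop (𝓝 0) :=
      tendsto_pow_atTop_nhds_zero_of_lt_one (by norm_num) (by norm_num)
    rw [tendsto_zero_iff_abs_tendsto_zero]
    refine squeeze_zero' (Eventually.of_forall fun l => abs_nonneg _) (Eventually.of_forall fun l => ?_) h4
    have a1 := (hφT l).2.2
    have p2 : (0:ℝ) < 2 ^ l := by positivity
    simp only [Function.comp]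
    rw [abs_mul, abs_of_pos p2]
    refine (mul_le_mul_of_nonneg_right a1.le p2.le).trans (le_of_eq ?_)
    have e4 : (4:ℝ) ^ l = 2 ^ l * 2 ^ l := by rw [← mul_pow]; norm_num
    rw [e4, one_div, one_div, inv_pow]
    field_simp

end Pool.Agent.Helper51.MX
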